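import Pool.Agent.Y273.GL.Nec2

set_option autoImplicit false
open MeasureTheory Set
open scoped ENNReal NNReal

namespace Pool.Agent.Results.MP_842e08_an.WeightsGStar

/-- A weight: a nonnegative locally integrable function on the line. -/
def IsWeight (U : ℝ → ℝ) : Prop := (∀ x, 0 ≤ U x) ∧ LocallyIntegrable U

/-- The Muckenhoupt condition `A_r` (computed in `[0, ∞]`, with `0 * ∞ = 0`). -/
def CondA (r : ℝ) (U : ℝ → ℝ) : Prop :=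
  ∃ C : ℝ≥0, ∀ a b : ℝ, a < b →
    (∫⁻ x in Ioo a b, ENNReal.ofReal (U x)) / ENNReal.ofReal (b - a) *
      ((∫⁻ x in Ioo a b, ENNReal.ofReal (U x) ^ (-(1 / (r - 1)))) /
        ENNReal.ofReal (b - a)) ^ (r - 1) ≤ C

/-- The condition `B_r`, for the interval with centre `c` and length `l`. -/
def CondB (r : ℝ) (U : ℝ → ℝ) : Prop :=
  ∃ C : ℝ≥0, ∀ c l : ℝ, 0 < l →
    ∫⁻ x, ENNReal.ofReal (l ^ (r - 1) * U x / (l ^ r + |x - c| ^ r)) ≤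
      C / ENNReal.ofReal l * ∫⁻ x in Ioo (c - l / 2) (c + l / 2), ENNReal.ofReal (U x)

variable {𝕜 : Type} [RCLike 𝕜]

/-- The Poisson integral `f(z, y)`. -/
noncomputable def poisson (f : ℝ → 𝕜) (z y : ℝ) : 𝕜 :=
  (1 / Real.pi) • ∫ x : ℝ, (y / (x ^ 2 + y ^ 2)) • f (z - x)

/-- `|∇ f(z, y)|²`, the gradient being taken in `(z, y)`. -/
noncomputable def gradSq (f : ℝ → 𝕜) (z y : ℝ) : ℝ :=
  ‖deriv (fun z' => poisson f z' y) z‖ ^ 2 + ‖deriv (fun y' => poisson f z y') y‖ ^ 2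

/-- The Littlewood-Paley function `g_λ^*(f)(x)`, with values in `[0, ∞]`. -/
noncomputable def gStar (lam : ℝ) (f : ℝ → 𝕜) (x : ℝ) : ℝ≥0∞ :=
  (∫⁻ z : ℝ, ∫⁻ y in Ioi (0 : ℝ),
    ENNReal.ofReal ((y / (|x - z| + y)) ^ lam * gradSq f z y)) ^ (1 / 2 : ℝ)

/-- The weighted norm inequality `(∗)` for `𝕜`-valued functions. -/
def Star (𝕜 : Type) [RCLike 𝕜] (lam p : ℝ) (U : ℝ → ℝ) : Prop :=
  ∃ C : ℝ≥0, ∀ f : ℝ → 𝕜, AEStronglyMeasurable f volume →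
    ∫⁻ x, ENNReal.ofReal (‖f x‖ ^ p * U x) < ⊤ →
    ∫⁻ x, gStar lam f x ^ p * ENNReal.ofReal (U x) ≤
      C * ∫⁻ x, ENNReal.ofReal (‖f x‖ ^ p * U x)

/-- **Characterisation of the weights.** For `1 < λ ≤ 2` and `2/λ < p < 2` the inequality `(∗)`
holds for a weight `U` exactly when `U ∈ A_p ∩ B_{λp/2}`. -/
theorem result (𝕜 : Type) [RCLike 𝕜] {lam p : ℝ} (h1 : 1 < lam) (h2 : lam ≤ 2)
    (hp1 : 2 / lam < p) (hp2 : p < 2) {U : ℝ → ℝ} (hU : IsWeight U) :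
    Star 𝕜 lam p U ↔ CondA p U ∧ CondB (lam * p / 2) U :=
  ⟨fun h => ⟨Pool.Agent.Y273.GL.necA (𝕜 := 𝕜) h1 h2 hp1 hU h,
    Pool.Agent.Y273.GL.necB (𝕜 := 𝕜) h1 h2 hp1 hU h⟩,
    fun h => Pool.Agent.Y273.GL.suff (𝕜 := 𝕜) h1 h2 hp1 hp2 hU h.1 h.2⟩

end Pool.Agent.Results.MP_842e08_an.WeightsGStar
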